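import Pool.Agent.H60.BM.Fin
import Pool.Graph.R_pool_sql_team_seeded_63374d34.N467.BL.Fam

/-!
# The Birkhoff-Lewis inequality for width six, for all `q > 29 / 7`

`Disc w G S r` (in `Pool.Agent.N467.BL.Defs`): the graph `G` with the vertex set `S` is drawn in a
disc bounded by the cycle through `r`, and it is built from polygons by gluing two discs along
boundary paths, again and again, all perimeters being at most `w`.

`Fam w V G` (in `Pool.Agent.N467.BL.Fam`): the least family which contains these graphs and the graphs
with at most one vertex, and contains a graph `G` whenever it contains `G + uv` and `G / uv` (`u` and
`v` identified) for two vertices `u`, `v` which are not adjacent. `Fam w` contains all planar graphs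
of branchwidth at most `w` (this is not in Lean).

The library has positivity for `Fam 6` on `113 / 25 < q < 5`. Here the range is `29 / 7 < q < 5`
(`29 / 7 = 4.1428...`). Proof: below `113 / 25` the library's cone for rings of length six, with 46
generators, is not closed under gluing. It becomes closed for `29 / 7 < q < 32 / 7` when 36 generators
are added: the vectors of the ring around a diamond of four vertices of degree five and of larger
discs. Every product of a new generator with a generator, for the 72 types of gluing concerned, is a
scalar (positive for `q > 4`) times one of 4516 vectors of polynomials, up to rotation and reflection.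
Each of these vectors, and each of the library's redundant vectors, is a combination of generators
whose coefficients are quotients of polynomials with positive values on the interval. All this is
checked by the kernel.
-/

set_option autoImplicit false

namespace Pool.Agent.Results.MP_0d034c_co.WidthSixFrom29Over7

open Polynomial Pool.Agent.N467.BL

/-- Let `G` be a finite graph in `Fam 6`. Then its chromatic polynomial is strictly positive at every
real `q` with `29 / 7 < q < 5`. -/
theorem result (V : Type) [Finite V] (G : SimpleGraph V) (hG : Fam 6 V G)
    (p : ℝ[X]) (hp : ∀ k : ℕ, p.eval (k : ℝ) = (Nat.card (G.Coloring (Fin k)) : ℝ)) (q : ℝ)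
    (h1 : 29 / 7 < q) (h2 : q < 5) : 0 < p.eval q :=
  fam_pos (by linarith) (fun _ _ _ _ h p hp => Pool.Agent.H60.BM.disc6_pos' h p hp h1 h2) hG p hp

end Pool.Agent.Results.MP_0d034c_co.WidthSixFrom29Over7
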